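import Pool.Agent.Helper25.VS.Stab

/-!
# A 2-connected cocompact complex with a vertex stabiliser which is not finitely presented

`L` is a finite acyclic flag complex with nontrivial fundamental group (the 2-dimensional spine of
the Poincaré sphere), `G` its right-angled Artin group, `H` the Bestvina-Brady group, `Y` the order
complex of the poset of the cosets `g A_σ` (`σ` a nonempty clique) and `X = Y * (G / H)` the join
of `Y` with the discrete set `G / H`.  As `Y` is connected and `H_1(Y) = 0`, `X` is 2-connected;
the simplices of positive dimension have finitely generated free abelian stabilisers, and `H` is the stabiliser of a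
vertex.
-/

set_option autoImplicit false

namespace Pool.Agent.Results.MP_63e749_al.VertexStabiliser

open Pool.Agent.Helper25.VS Pool.Agent.W326.DU Pool.Agent.Y66.HC Pool.Agent.Q18.HC.BB

/-- **Main theorem.** -/
theorem result : ∃ (G V : Type) (_ : Group G) (_ : MulAction G V)
    (X : AbstractSimplicialComplex V),
    GComplex G X ∧ TwoConn X ∧ Cocompact G X ∧
    (∀ s ∈ X.faces, 2 ≤ s.card → Group.IsFinitelyPresented (stab G s)) ∧
    Group.IsFinitelyPresented G ∧
    ∃ v : V, ¬ Group.IsFinitelyPresented (MulAction.stabilizer G v) := by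
  classical
  obtain ⟨V, _, _, ad, γ, l, p, hg⟩ := Pool.Agent.Q18.HC.m8
  refine ⟨RAAG ad, WV ad, inferInstance, inferInstance, XX ad, gcomplex, ⟨?_, ?_⟩, cocompact,
    stab_fp, raag_fp, Sum.inr ((1 : RAAG ad) : RAAG ad ⧸ (hgt ad).ker), ?_⟩
  · exact join_simply ((1 : RAAG ad) : RAAG ad ⧸ (hgt ad).ker) (vt ad 1 (sg ad (p 0))) one cone
      (conn_Y hg.symm hg.conn (p 0))
  · apply h2zero_of_coh2
    apply join_coh2 ((1 : RAAG ad) : RAAG ad ⧸ (hgt ad).ker) one cone
    intro A _ f hf
    exact coh1_Y hg.symm hg.irr hg.acyc (p 0) f hf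
  · rw [stabilizer_inr]
    exact ker_not_fp hg

end Pool.Agent.Results.MP_63e749_al.VertexStabiliser
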